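import Pool.Agent.X83.DM.Stm

set_option autoImplicit false

namespace Pool.Agent.X28.DM.ID

open MeasureTheory Set Filter Topology Real Pool.Agent.X83.DM

variable {a c : ℝ} {y g : ℝ → ℝ}

lemma dgs (h : Ker a c y g) (w r : ℝ) : HasDerivAt (fun r => g (w - r)) (c * g (w - r) + a * y (w - r)) r := by
  have := (h.dg (w - r)).comp_const_sub w r
  refine this.congr_deriv ?_
  ring

lemma dys (h : Ker a c y g) (w r : ℝ) : HasDerivAt (fun r => y (w - r)) (-g (w - r)) r :=
  (h.dy (w - r)).comp_const_sub w r

lemma const_of {P : ℝ → ℝ} (hP : ∀ r, HasDerivAt P 0 r) (u v : ℝ) : P u = P v :=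
  is_const_of_deriv_eq_zero (fun r => (hP r).differentiableAt) (fun r => (hP r).deriv) u v

lemma add_g (h : Ker a c y g) (u v : ℝ) : g (u + v) = g u * g v - a * (y u * y v) := by
  have hP : ∀ r, HasDerivAt (fun r => g r * g (u + v - r) - a * (y r * y (u + v - r))) 0 r := by
    intro r
    have h1 := ((h.dg r).mul (dgs h (u + v) r)).sub (((h.dy r).mul (dys h (u + v) r)).const_mul a)
    refine h1.congr_deriv ?_
    ring
  have h2 := const_of hP u 0
  simp only [h.y0, h.g0, sub_zero, zero_mul, mul_zero, one_mul, add_sub_cancel_left] at h2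
  exact h2.symm

lemma add_y (h : Ker a c y g) (u v : ℝ) : y (u + v) = y u * g v + g u * y v + c * (y u * y v) := by
  have hP : ∀ r, HasDerivAt (fun r => y r * g (u + v - r) + g r * y (u + v - r) + c * (y r * y (u + v - r))) 0 r := by
    intro r
    have h1 := (((h.dy r).mul (dgs h (u + v) r)).add ((h.dg r).mul (dys h (u + v) r))).add
      (((h.dy r).mul (dys h (u + v) r)).const_mul c)
    refine h1.congr_deriv ?_
    ring
  have h2 := const_of hP u 0
  simp only [h.y0, h.g0, sub_zero, zero_mul, mul_zero, one_mul, add_sub_cancel_left, zero_add, add_zero] at h2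
  exact h2.symm

lemma cg (h : Ker a c y g) : Continuous g := continuous_iff_continuousAt.2 fun t => (h.dg t).continuousAt

lemma cy (h : Ker a c y g) : Continuous y := continuous_iff_continuousAt.2 fun t => (h.dy t).continuousAt

theorem t : S_ID := by
  intro a c y g h s
  have hcg := cg h
  have hcy := cy h
  -- the two integrals
  set A : ℝ → ℝ := fun s => ∫ r in (0 : ℝ)..s, g r * g (-r) with hA
  set B : ℝ → ℝ := fun s => ∫ r in (0 : ℝ)..s, g r * y (-r) with hB
  have dA : ∀ s, HasDerivAt A (g s * g (-s)) s := fun s =>
    intervalIntegral.integral_hasDerivAt_right ((by fun_prop : Continuous fun r => g r * g (-r)).intervalIntegrable _ _)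
      ((by fun_prop : Continuous fun r => g r * g (-r)).stronglyMeasurableAtFilter _ _)
      (by fun_prop : Continuous fun r => g r * g (-r)).continuousAt
  have dB : ∀ s, HasDerivAt B (g s * y (-s)) s := fun s =>
    intervalIntegral.integral_hasDerivAt_right ((by fun_prop : Continuous fun r => g r * y (-r)).intervalIntegrable _ _)
      ((by fun_prop : Continuous fun r => g r * y (-r)).stronglyMeasurableAtFilter _ _)
      (by fun_prop : Continuous fun r => g r * y (-r)).continuousAt
  have hI1 : ∀ s, ∫ r in (0 : ℝ)..s, g r * g (s - r) = g s * A s - a * (y s * B s) := by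
    intro s
    have e : ∀ r, g r * g (s - r) = g s * (g r * g (-r)) - a * y s * (g r * y (-r)) := by
      intro r
      rw [sub_eq_add_neg, add_g h s (-r)]
      ring
    simp only [e]
    rw [intervalIntegral.integral_sub
      ((by fun_prop : Continuous fun r => g s * (g r * g (-r))).intervalIntegrable _ _)
      ((by fun_prop : Continuous fun r => a * y s * (g r * y (-r))).intervalIntegrable _ _),
      intervalIntegral.integral_const_mul, intervalIntegral.integral_const_mul]
    ring
  have hI3 : ∀ s, ∫ r in (0 : ℝ)..s, g r * y (s - r) = y s * A s + (g s + c * y s) * B s := by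
    intro s
    have e : ∀ r, g r * y (s - r) = y s * (g r * g (-r)) + (g s + c * y s) * (g r * y (-r)) := by
      intro r
      rw [sub_eq_add_neg, add_y h s (-r)]
      ring
    simp only [e]
    rw [intervalIntegral.integral_add
      ((by fun_prop : Continuous fun r => y s * (g r * g (-r))).intervalIntegrable _ _)
      ((by fun_prop : Continuous fun r => (g s + c * y s) * (g r * y (-r))).intervalIntegrable _ _),
      intervalIntegral.integral_const_mul, intervalIntegral.integral_const_mul]
  -- the two algebraic identities
  have id1 : ∀ s, (∫ r in (0 : ℝ)..s, g r * g (s - r)) - a * (∫ r in (0 : ℝ)..s, y r * y (s - r)) = s * g s := by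
    intro s
    have e : ∀ r, g s = g r * g (s - r) - a * (y r * y (s - r)) := by
      intro r
      have := add_g h r (s - r)
      rw [add_sub_cancel] at this
      exact this
    have h1 : ∫ _r in (0 : ℝ)..s, g s = ∫ r in (0 : ℝ)..s, (g r * g (s - r) - a * (y r * y (s - r))) := by
      congr 1
      funext r
      exact e r
    rw [intervalIntegral.integral_const, intervalIntegral.integral_sub
      ((by fun_prop : Continuous fun r => g r * g (s - r)).intervalIntegrable _ _)
      ((by fun_prop : Continuous fun r => a * (y r * y (s - r))).intervalIntegrable _ _),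
      intervalIntegral.integral_const_mul, smul_eq_mul, sub_zero] at h1
    exact h1.symm
  have hsym : ∀ s, ∫ r in (0 : ℝ)..s, y r * g (s - r) = ∫ r in (0 : ℝ)..s, g r * y (s - r) := by
    intro s
    have h1 := intervalIntegral.integral_comp_sub_left (a := 0) (b := s) (fun r => g r * y (s - r)) s
    rw [sub_self, sub_zero] at h1
    rw [← h1]
    congr 1
    funext r
    rw [sub_sub_cancel]
    ring
  have id2 : ∀ s, 2 * (∫ r in (0 : ℝ)..s, g r * y (s - r)) + c * (∫ r in (0 : ℝ)..s, y r * y (s - r)) = s * y s := by
    intro s
    have e : ∀ r, y s = y r * g (s - r) + g r * y (s - r) + c * (y r * y (s - r)) := by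
      intro r
      have := add_y h r (s - r)
      rw [add_sub_cancel] at this
      exact this
    have h1 : ∫ _r in (0 : ℝ)..s, y s =
        ∫ r in (0 : ℝ)..s, (y r * g (s - r) + g r * y (s - r) + c * (y r * y (s - r))) := by
      congr 1
      funext r
      exact e r
    rw [intervalIntegral.integral_const, intervalIntegral.integral_add
      ((by fun_prop : Continuous fun r => y r * g (s - r) + g r * y (s - r)).intervalIntegrable _ _)
      ((by fun_prop : Continuous fun r => c * (y r * y (s - r))).intervalIntegrable _ _),
      intervalIntegral.integral_add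
      ((by fun_prop : Continuous fun r => y r * g (s - r)).intervalIntegrable _ _)
      ((by fun_prop : Continuous fun r => g r * y (s - r)).intervalIntegrable _ _),
      intervalIntegral.integral_const_mul, smul_eq_mul, sub_zero, hsym] at h1
    linarith
  have id3 : ∀ s, c * (g s * A s - a * (y s * B s)) + 2 * a * (y s * A s + (g s + c * y s) * B s) = s * (c * g s + a * y s) := by
    intro s
    have h1 := id1 s
    have h2 := id2 s
    rw [← hI1, ← hI3]
    linear_combination c * h1 + a * h2
  -- the differential equation
  have dR : ∀ s, HasDerivAt (fun s => exp (c * s / 2) * (s / 2 * g s - (g s * A s - a * (y s * B s))))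
      (1 / 2 * ((s * c / 2 - 1) * exp (c * s / 2) * g s)) s := by
    intro s
    have e1 : HasDerivAt (fun s : ℝ => exp (c * s / 2)) (exp (c * s / 2) * (c / 2)) s := by
      have h1 : HasDerivAt (fun s : ℝ => c * s / 2) (c / 2) s := by
        have := ((hasDerivAt_id s).const_mul c).div_const 2
        refine this.congr_deriv ?_
        ring
      exact h1.exp
    have e2 : HasDerivAt (fun s : ℝ => s / 2 * g s) (1 / 2 * g s + s / 2 * (-(c * g s) - a * y s)) s :=
      ((hasDerivAt_id s).div_const 2).mul (h.dg s)
    have e3 := (((h.dg s).mul (dA s)).sub (((h.dy s).mul (dB s)).const_mul a))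
    have e4 := e1.mul (e2.sub e3)
    refine e4.congr_deriv ?_
    have h3 := id3 s
    have h4 := add_g h s (-s)
    rw [add_neg_cancel, h.g0] at h4
    simp only [Pi.mul_apply, Pi.sub_apply]
    linear_combination exp (c * s / 2) * g s * h4 + exp (c * s / 2) / 2 * h3
  have key := intervalIntegral.integral_eq_sub_of_hasDerivAt (a := 0) (b := s) (fun r _ => dR r)
    ((by fun_prop : Continuous fun r => 1 / 2 * ((r * c / 2 - 1) * exp (c * r / 2) * g r)).intervalIntegrable _ _)
  rw [hI1]
  have hA0 : A 0 = 0 := by rw [hA]; simp
  have hB0 : B 0 = 0 := by rw [hB]; simp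
  rw [hA0, hB0] at key
  simp only [mul_zero, zero_div, zero_mul, sub_zero] at key
  rw [intervalIntegral.integral_const_mul] at key
  have e5 : ∫ r in (0 : ℝ)..s, (r * c / 2 - 1) * exp (-(c * (s - r) / 2)) * g r =
      exp (-(c * s / 2)) * ∫ r in (0 : ℝ)..s, (r * c / 2 - 1) * exp (c * r / 2) * g r := by
    rw [← intervalIntegral.integral_const_mul]
    congr 1
    funext r
    have : -(c * (s - r) / 2) = -(c * s / 2) + c * r / 2 := by ring
    rw [this, exp_add]
    ring
  rw [e5]
  have e6 : exp (-(c * s / 2)) * exp (c * s / 2) = 1 := by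
    rw [← exp_add, neg_add_cancel, exp_zero]
  linear_combination exp (-(c * s / 2)) * key + (s / 2 * g s - (g s * A s - a * (y s * B s))) * e6

end Pool.Agent.X28.DM.ID
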